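import Pool.Agent.Lib.MP_a94b90_nt.ES.All

namespace Pool.Agent.Results.MP_a94b90_nt.BadAsymp
open ExOrd

theorem result : Filter.Tendsto (fun c : ℝ => (1 - (dimH {ξ : ℝ | 0 ≤ ξ ∧ ξ ≤ 1 ∧
      ∀ x y z : ℤ, ¬ (x = 0 ∧ y = 0 ∧ z = 0) → c ≤ |(x : ℝ) + ξ * y + ξ ^ 2 * z| *
        ((max x.natAbs (max y.natAbs z.natAbs) : ℕ) : ℝ) ^ 2}).toReal) / c)
    (nhdsWithin 0 (Set.Ioi 0)) (nhds (2 / ∑' n : ℕ, 1 / ((n : ℝ) + 1) ^ 3)) := by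
  have hK : ∀ c : ℝ, {ξ : ℝ | 0 ≤ ξ ∧ ξ ≤ 1 ∧
      ∀ x y z : ℤ, ¬ (x = 0 ∧ y = 0 ∧ z = 0) → c ≤ |(x : ℝ) + ξ * y + ξ ^ 2 * z| *
        ((max x.natAbs (max y.natAbs z.natAbs) : ℕ) : ℝ) ^ 2} = KS c := by
    intro c
    ext ξ
    refine ⟨fun h => ⟨⟨h.1, h.2.1⟩, fun a b d h5 => ?_⟩, fun h => ⟨h.1.1, h.1.2, fun x y z h4 => ?_⟩⟩
    · rw [Lv_eq]
      exact h.2.2 d b a (by tauto)
    · rw [← Lv_eq]
      exact h.2 z y x (by tauto)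
  simp only [hK]
  obtain ⟨z1, z2⟩ := Z3_bd
  change Filter.Tendsto _ _ (nhds (2 / Z3))
  rw [Metric.tendsto_nhdsWithin_nhds]
  intro ε hε
  obtain ⟨c1, p1, h1⟩ := sharpLowT (ε / 4) (by positivity)
  obtain ⟨c2, p2, h2⟩ := sharpUpT (ε / 4) (by positivity)
  refine ⟨min (min c1 c2) (1 / 2), by positivity, fun c hc hd => ?_⟩
  have c0 : 0 < c := hc
  rw [Real.dist_eq, sub_zero, abs_of_pos c0, lt_min_iff, lt_min_iff] at hd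
  have y0 : 0 < 2 / Z3 := by positivity
  have y1 : 2 / Z3 ≤ 2 := div_le_self (by norm_num) z1
  have e : 2 * c / Z3 = 2 / Z3 * c := by ring
  have k2 := h2 c c0 hd.1.2.le
  have k1 := (ENNReal.ofReal_le_iff_le_toReal (ne_top_of_le_ne_top ENNReal.ofReal_ne_top k2)).1
    (h1 c c0 hd.1.1.le)
  rw [e] at k1 k2
  have k3 := ENNReal.toReal_le_of_le_ofReal (by nlinarith [mul_pos y0 c0]) k2
  rw [Real.dist_eq, abs_lt, lt_sub_iff_add_lt, sub_lt_iff_lt_add, lt_div_iff₀ c0, div_lt_iff₀ c0]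
  have k4 := mul_pos hε c0
  constructor <;> nlinarith

end Pool.Agent.Results.MP_a94b90_nt.BadAsymp
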