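import Pool.Agent.Lib.MP_a94b90_nt.ED.AllE

namespace Pool.Agent.Results.MP_a94b90_nt.ExactDim
open ExOrd

theorem result (ψ : ℕ → ℝ)
    (hmono : ∀ H H' : ℕ, 1 ≤ H → H ≤ H' → ψ H' ≤ ψ H) (hpos : ∀ H : ℕ, 1 ≤ H → 0 < ψ H)
    (hlim : Filter.Tendsto (fun H : ℕ => (H : ℝ) ^ 2 * ψ H) Filter.atTop (nhds 0))
    (w : ℝ) (hw : 2 ≤ w)
    (hup : ∀ ε : ℝ, 0 < ε → ∀ᶠ H : ℕ in Filter.atTop, ψ H ≤ (H : ℝ) ^ (-w + ε))
    (hlow : ∀ ε : ℝ, 0 < ε → ∃ᶠ H : ℕ in Filter.atTop, (H : ℝ) ^ (-w - ε) ≤ ψ H) :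
    dimH {ξ : ℝ | Transcendental ℚ ξ ∧
      (∃ H0 : ℕ, ∀ x y z : ℤ, H0 ≤ max x.natAbs (max y.natAbs z.natAbs) →
        ψ (max x.natAbs (max y.natAbs z.natAbs)) ≤ |(x : ℝ) + ξ * y + ξ ^ 2 * z|) ∧
      ∀ ε : ℝ, 0 < ε → ∀ K : ℕ, ∃ x y z : ℤ, K ≤ max x.natAbs (max y.natAbs z.natAbs) ∧
        ¬ IsSquare (y ^ 2 - 4 * z * x) ∧
        |(x : ℝ) + ξ * y + ξ ^ 2 * z| ≤ (1 + ε) * ψ (max x.natAbs (max y.natAbs z.natAbs))} =
      ENNReal.ofReal (3 / (w + 1)) := by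
  have hev : ∀ k : ℤ, ∃ N : ℕ, ∀ H : ℕ, N ≤ H → (H : ℝ) ^ 2 * ψ H ≤ P k := fun k =>
    Filter.eventually_atTop.1 (hlim.eventually (ge_mem_nhds (P_pos k)))
  have hσ : 0 < 3 / (w + 1) := by positivity
  refine le_antisymm (le_of_forall_gt_imp_ge_of_dense fun t ht => ?_)
    (le_of_forall_lt_imp_le_of_dense fun t ht => ?_)
  · rcases eq_or_ne t ⊤ with rfl | htop
    · exact le_top
    have h1 : 3 / (w + 1) < t.toReal := (ENNReal.ofReal_lt_iff_lt_toReal hσ.le htop).1 ht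
    rw [← ENNReal.ofReal_toReal htop]
    rcases le_or_gt 1 t.toReal with h2 | h2
    · refine (dimH_mono (Set.subset_univ _)).trans ?_
      rw [Real.dimH_univ]
      exact ENNReal.one_le_ofReal.2 h2
    have h3 : 0 < t.toReal := hσ.trans h1
    obtain ⟨v, hv⟩ : ∃ v : ℝ, v = 3 / t.toReal - 1 := ⟨_, rfl⟩
    have h4 : 2 ≤ v := by
      rw [hv, le_sub_iff_add_le, le_div_iff₀ h3]; linarith
    have h5 : v < w := by
      rw [hv, sub_lt_iff_lt_add, div_lt_iff₀ h3]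
      rw [div_lt_iff₀ (by linarith)] at h1
      linarith
    have h6 : 3 / (v + 1) = t.toReal := by rw [hv]; field_simp; ring
    refine (dimH_mono ?_).trans (h6 ▸ upT v h4)
    rintro ξ ⟨-, -, h7⟩ K
    have h8 : ∀ᶠ H : ℕ in Filter.atTop, (2 : ℝ) ≤ (H : ℝ) ^ ((w - v) / 2) :=
      ((tendsto_rpow_atTop (by linarith)).comp tendsto_natCast_atTop_atTop).eventually_ge_atTop 2
    obtain ⟨N, hN⟩ := Filter.eventually_atTop.1 (h8.and (hup ((w - v) / 2) (by linarith)))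
    obtain ⟨x, y, z, k1, k2, k3⟩ := h7 1 one_pos (K + N + 1)
    refine ⟨z, y, x, le_trans (by omega) k1, fun h => k2 ⟨0, by rw [h]; ring⟩, ?_⟩
    obtain ⟨k4, k5⟩ := hN (Ht z y x) (le_trans (by omega) k1)
    have k6 : (0 : ℝ) < Ht z y x := by
      have : 0 < Ht z y x := lt_of_lt_of_le (by omega) k1
      exact_mod_cast this
    rw [Lv_eq, show -v = (w - v) / 2 + (-w + (w - v) / 2) by ring, Real.rpow_add k6]
    refine k3.trans ?_
    exact mul_le_mul (by linarith) k5 (hpos _ (by exact_mod_cast k6)).le (by positivity)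
  · have htop : t ≠ ⊤ := ne_top_of_lt ht
    rcases eq_or_ne t 0 with rfl | h0
    · exact zero_le
    have h1 : t.toReal < 3 / (w + 1) := by
      rwa [← ENNReal.ofReal_toReal htop, ENNReal.ofReal_lt_ofReal_iff hσ] at ht
    have h2 : 0 < t.toReal := ENNReal.toReal_pos h0 htop
    obtain ⟨a, b, h, c1, c2, c3, c4⟩ := choice w t.toReal hw h2 h1
    have hb : (0 : ℝ) < b := by exact_mod_cast c1
    have hfr : ∀ M : ℕ, ∃ H : ℕ, M ≤ H ∧ 1 ≤ ψ H ^ b * (H : ℝ) ^ a := by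
      intro M
      obtain ⟨H, k1, k2⟩ := Filter.frequently_atTop.1 (hlow (a / b - w) (by linarith)) (M + 1)
      have k3 : (0 : ℝ) < H := by
        have : 0 < H := by omega
        exact_mod_cast this
      refine ⟨H, by omega, ?_⟩
      have k4 := pow_le_pow_left₀ (by positivity) k2 b
      rw [← Real.rpow_natCast, ← Real.rpow_mul k3.le,
        show (-w - (a / b - w)) * b = -(a : ℝ) by field_simp; ring, Real.rpow_neg k3.le,
        Real.rpow_natCast, inv_le_iff_one_le_mul₀ (by positivity)] at k4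
      exact k4
    have key := hd _ t.toReal (P (-7 * h - 50)) h2 (P_pos _) (fun C hC => by
      obtain ⟨ξ, k1, k2, k3⟩ := low2T ψ C _ a b h hmono hpos hev hfr c1 c2 (by positivity)
        (Real.rpow_le_one_of_one_le_of_nonpos (by norm_num) (by linarith)) c4 hC
      exact ⟨ξ, (show ξ ∈ {ξ : ℝ | (∃ H0 : ℕ, ∀ a' b' c' : ℤ, H0 ≤ Ht a' b' c' →
        ψ (Ht a' b' c') ≤ |Lv a' b' c' ξ|) ∧ ∀ g K : ℕ, ∃ a' b' c' : ℤ, K ≤ Ht a' b' c' ∧
          ¬ IsSquare (b' ^ 2 - 4 * a' * c') ∧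
          |Lv a' b' c' ξ| ≤ (1 + P (-g)) * ψ (Ht a' b' c')} from ⟨k1, k2⟩), k3⟩)
    rw [ENNReal.ofReal_toReal htop] at key
    have hcut : ∀ S T : Set ℝ, S ⊆ T ∪ {ξ : ℝ | IsAlgebraic ℚ ξ} → dimH S ≤ dimH T := by
      intro S T hST
      refine (dimH_mono hST).trans ?_
      rw [dimH_union, (Algebraic.countable ℚ ℝ).dimH_zero, max_eq_left zero_le]
    refine key.trans (hcut _ _ ?_)
    rintro ξ ⟨⟨H0, k1⟩, k2⟩
    by_cases ha : IsAlgebraic ℚ ξ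
    · exact Or.inr ha
    refine Or.inl ⟨ha, ⟨H0, fun x y z k3 => ?_⟩, fun ε hε K => ?_⟩
    · rw [← Lv_eq]
      exact k1 z y x k3
    · obtain ⟨m, hm⟩ := exists_pow_lt_of_lt_one hε (show (1 / 2 : ℝ) < 1 by norm_num)
      obtain ⟨a', b', c', k3, k4, k5⟩ := k2 m (K + 1)
      have k6 : P (-(m : ℤ)) ≤ ε := by
        rw [P_neg, ← one_div_pow]
        exact hm.le
      rw [Lv_eq] at k5
      exact ⟨c', b', a', le_trans (Nat.le_succ K) k3, k4, k5.trans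
        (mul_le_mul_of_nonneg_right (by linarith) (hpos _ (by omega)).le)⟩

end Pool.Agent.Results.MP_a94b90_nt.ExactDim
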