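import Pool.Agent.Lib.MP_a94b90_nt.EX.All

namespace Pool.Agent.Results.MP_a94b90_nt.Spectrum
open ExOrd

theorem result (g : ℕ) (hg : 8 ≤ g) (ψ : ℕ → ℝ)
    (hmono : ∀ H H' : ℕ, 1 ≤ H → H ≤ H' → ψ H' ≤ ψ H) (hpos : ∀ H : ℕ, 1 ≤ H → 0 < ψ H)
    (hsmall : ∀ H : ℕ, 1 ≤ H → (H : ℝ) ^ 2 * ψ H ≤ 1 / 2 ^ (4000 * (100 + g))) :
    ¬ Set.Countable {ξ : ℝ | Transcendental ℚ ξ ∧
      (∀ x y z : ℤ, ¬ (x = 0 ∧ y = 0 ∧ z = 0) →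
        ψ (max x.natAbs (max y.natAbs z.natAbs)) ≤ |(x : ℝ) + ξ * y + ξ ^ 2 * z|) ∧
      ∀ K : ℕ, ∃ x y z : ℤ, K ≤ max x.natAbs (max y.natAbs z.natAbs) ∧
        ¬ IsSquare (y ^ 2 - 4 * z * x) ∧
        |(x : ℝ) + ξ * y + ξ ^ 2 * z| ≤
          (1 + 1 / 2 ^ g) * ψ (max x.natAbs (max y.natAbs z.natAbs))} := by
  have hs : ∀ H : ℕ, 1 ≤ H → (H : ℝ) ^ 2 * ψ H ≤ P (-4000 * (100 + g)) := by
    intro H hH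
    have := hsmall H hH
    rw [← P_neg] at this
    exact le_P this (by push_cast; omega)
  refine trans_unc (mainThm ψ 1 hmono hpos le_rfl fun H hH => le_P (hs H hH) (by omega)) ?_
  rintro ξ ⟨h1, h2⟩ ht
  refine ⟨ht, fun x y z h => ?_, fun K => ?_⟩
  · rw [← Lv_eq]
    refine h1 z y x (Nat.one_le_iff_ne_zero.2 fun h0 => h ?_)
    have := Ht_eq_zero.1 h0
    tauto
  · obtain ⟨a, b, c, h3, h4, h5⟩ := h2 g hg ⟨1, hs⟩ K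
    rw [Lv_eq, P_neg] at h5
    exact ⟨c, b, a, h3, h4, h5⟩

end Pool.Agent.Results.MP_a94b90_nt.Spectrum
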