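import Mathlib
import Pool.Agent.Lib.MP_a94b90_nt.U.Tree
import Pool.Agent.Lib.MP_a94b90_nt.U.Core
import Pool.Agent.Lib.MP_a94b90_nt.U.Good
import Pool.Agent.Lib.MP_a94b90_nt.U.Root
import Pool.Agent.Lib.MP_a94b90_nt.U.Root2
import Pool.Agent.Lib.MP_a94b90_nt.U.Count
import Pool.Agent.Lib.MP_a94b90_nt.U.Real
import Pool.Agent.Lib.MP_a94b90_nt.U.Two
import Pool.Agent.Lib.MP_a94b90_nt.U.Stage
import Pool.Agent.Lib.MP_a94b90_nt.U.Lim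
import Pool.Agent.Lib.MP_a94b90_nt.U.Liou
import Pool.Agent.Lib.MP_a94b90_nt.U.Alg
import Pool.Agent.Lib.MP_a94b90_nt.U.Um

/-!
For every real algebraic `θ` of degree `m = n + 1` there is a `U_m`-number `ξ = θ + λ`, `λ` a
Liouville number, that is badly approximable by integer polynomials of degree at most `n` up to
a power of the logarithm of the height.
-/

set_option autoImplicit false

namespace Pool.Agent.Results.MP_a94b90_nt.UmLog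

open Polynomial Pool.Agent.Lib.MP_a94b90_nt.U

theorem result (n : ℕ) (θ : ℝ) (hθ : IsAlgebraic ℚ θ) (hd : (minpoly ℚ θ).natDegree = n + 1) :
    ∃ ξ : ℝ, Transcendental ℚ ξ ∧ Liouville (ξ - θ) ∧
      (∀ w : ℕ, Set.Infinite {P : ℤ[X] | P.natDegree ≤ n + 1 ∧ aeval ξ P ≠ 0 ∧
        ∀ i, |aeval ξ P| * |(P.coeff i : ℝ)| ^ w ≤ 1}) ∧
      ∃ c : ℝ, 0 < c ∧ ∀ Q : ℤ[X], Q ≠ 0 → Q.natDegree ≤ n → ∀ H : ℝ,
        (∀ i, |(Q.coeff i : ℝ)| ≤ H) →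
          c ≤ |aeval ξ Q| * H ^ n * Real.log (2 * H) ^ (2 * (n + 1) ^ 3) := by
  have hc := countS (coreS treeS) goodS
  obtain ⟨c, h0, h1⟩ := liouS n θ hθ hd
  obtain ⟨ξ, c1, h2, h3, h4⟩ := limS (stageS (realS hc rootS) (twoS hc rootS rootTwoS)) (n + 1) θ
    (Nat.succ_pos n) (algS n θ c h0 h1)
  obtain ⟨h5, h6⟩ := umS θ ξ hθ h3
  obtain ⟨c2, h7, h8⟩ := convS n ξ c1 h2 h4
  exact ⟨ξ, h5, h3, hd ▸ h6, c2, h7, fun Q hQ hn => h8 Q hQ (Nat.lt_succ_of_le hn)⟩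

end Pool.Agent.Results.MP_a94b90_nt.UmLog
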